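import Mathlib

/-!
# Binary digits of integer multiples
-/

set_option autoImplicit false

namespace Pool.Agent.Q74.Per

open MeasureTheory Set Filter

/-- the first binary digit of the fractional part of `y` -/
noncomputable def bit (y : ℝ) : ZMod 2 := ((⌊2 * y⌋ : ℤ) : ZMod 2)

theorem bit_add_int (y : ℝ) (m : ℤ) : bit (y + m) = bit y := by
  rw [bit, bit, mul_add, show (2 : ℝ) * (m : ℝ) = ((2 * m : ℤ) : ℝ) by push_cast; ring,
    Int.floor_add_intCast]
  push_cast
  have : (2 : ZMod 2) = 0 := rfl
  rw [this, zero_mul, add_zero]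

theorem bit_add_half (y : ℝ) : bit (y + 1 / 2) = bit y + 1 := by
  rw [bit, bit, mul_add, show (2 : ℝ) * (1 / 2) = ((1 : ℤ) : ℝ) by norm_num,
    Int.floor_add_intCast]
  push_cast
  rfl

/-- If the second digit of `y` vanishes then adding `x ∈ [0, 1/4)` does not change the digit. -/
theorem bit_add_small {x y : ℝ} (hy : bit (2 * y) = 0) (h0 : 0 ≤ x) (h1 : x < 1 / 4) :
    bit (y + x) = bit y := by
  rw [bit, ZMod.intCast_zmod_eq_zero_iff_dvd] at hy
  obtain ⟨j, hj⟩ := hy
  have h2 : (((2 : ℕ) : ℤ) * j : ℤ) ≤ 2 * (2 * y) ∧ 2 * (2 * y) < (((2 : ℕ) : ℤ) * j : ℤ) + 1 := by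
    rw [← hj]
    exact ⟨Int.floor_le _, Int.lt_floor_add_one _⟩
  push_cast at h2
  rw [bit, bit]
  have h3 : ⌊2 * y⌋ = j := by
    rw [Int.floor_eq_iff]
    constructor <;> linarith [h2.1, h2.2]
  have h4 : ⌊2 * (y + x)⌋ = j := by
    rw [Int.floor_eq_iff]
    constructor <;> linarith [h2.1, h2.2]
  rw [h3, h4]

/-- If the second digit of `y` vanishes then adding `x ∈ [1/2, 3/4)` changes the digit. -/
theorem bit_add_large {x y : ℝ} (hy : bit (2 * y) = 0) (h0 : 1 / 2 ≤ x) (h1 : x < 3 / 4) :
    bit (y + x) = bit y + 1 := by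
  have := bit_add_small (x := x - 1 / 2) hy (by linarith) (by linarith)
  rw [← this, ← bit_add_half]
  congr 1
  ring

theorem measurable_floor_mul (c : ℝ) : Measurable fun x : ℝ => ⌊2 * (c * x)⌋ :=
  Int.measurable_floor.comp (by fun_prop)

theorem measurableSet_bit (c : ℝ) (a : ZMod 2) : MeasurableSet {x : ℝ | bit (c * x) = a} := by
  have : {x : ℝ | bit (c * x) = a} = (fun x : ℝ => ⌊2 * (c * x)⌋) ⁻¹' {m : ℤ | (m : ZMod 2) = a} :=
    rfl
  rw [this]
  exact measurable_floor_mul c trivial

/-- the mean of the indicator function over a period -/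
noncomputable def P (A : Set ℝ) : ℝ := ∫ x in (0 : ℝ)..1, A.indicator (fun _ => (1 : ℝ)) x

theorem ii_indicator {A : Set ℝ} (hA : MeasurableSet A) (a b : ℝ) :
    IntervalIntegrable (A.indicator fun _ => (1 : ℝ)) volume a b := by
  rw [intervalIntegrable_iff]
  exact (integrableOn_const (by simp)).indicator hA

theorem P_shift {A : Set ℝ} (hA : ∀ x, x + 1 ∈ A ↔ x ∈ A) (δ : ℝ) :
    P {x | x + δ ∈ A} = P A := by
  have hper : Function.Periodic (A.indicator fun _ => (1 : ℝ)) 1 := by
    intro x
    by_cases h : x ∈ A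
    · rw [indicator_of_mem h, indicator_of_mem ((hA x).2 h)]
    · rw [indicator_of_notMem h, indicator_of_notMem (fun h' => h ((hA x).1 h'))]
  have h1 : ({x | x + δ ∈ A} : Set ℝ).indicator (fun _ => (1 : ℝ)) =
      fun x => (A.indicator fun _ => (1 : ℝ)) (x + δ) := by
    ext x
    by_cases h : x + δ ∈ A
    · rw [indicator_of_mem h, indicator_of_mem (show x ∈ {x | x + δ ∈ A} from h)]
    · rw [indicator_of_notMem h, indicator_of_notMem (show x ∉ {x | x + δ ∈ A} from h)]
  rw [P, h1, intervalIntegral.integral_comp_add_right, P]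
  have := hper.intervalIntegral_add_eq δ 0
  rw [zero_add] at this
  rw [← this]
  congr 1 <;> ring

theorem P_union {A B : Set ℝ} (hA : MeasurableSet A) (hB : MeasurableSet B)
    (h : Disjoint A B) : P (A ∪ B) = P A + P B := by
  rw [P, P, P, ← intervalIntegral.integral_add (ii_indicator hA _ _) (ii_indicator hB _ _),
    indicator_union_of_disjoint h]

theorem P_biUnion {ι : Type*} (s : Finset ι) (A : ι → Set ℝ) (hA : ∀ i ∈ s, MeasurableSet (A i))
    (h : (s : Set ι).PairwiseDisjoint A) : P (⋃ i ∈ s, A i) = ∑ i ∈ s, P (A i) := by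
  classical
  induction s using Finset.induction_on with
  | empty => simp [P]
  | insert a s ha ih =>
    rw [Finset.set_biUnion_insert, P_union (hA a (Finset.mem_insert_self _ _))
      (Finset.measurableSet_biUnion _ fun i hi => hA i (Finset.mem_insert_of_mem hi)),
      ih (fun i hi => hA i (Finset.mem_insert_of_mem hi)), Finset.sum_insert ha]
    · exact h.subset (by simp)
    · rw [disjoint_iUnion₂_right]
      intro i hi
      refine h (by simp) (by simp [hi]) ?_
      rintro rfl
      exact ha hi

section pattern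

variable {ι : Type*} (M : ι → ℤ) (k : ι → ℕ)

/-- the digits of the multiples `M i * x` are `β i` for `i ∈ s` -/
def pat (s : Finset ι) (β : ι → ZMod 2) : Set ℝ := {x | ∀ i ∈ s, bit (M i * x) = β i}

theorem measurableSet_pat (s : Finset ι) (β : ι → ZMod 2) : MeasurableSet (pat M s β) := by
  have : pat M s β = ⋂ i ∈ s, {x : ℝ | bit (M i * x) = β i} := by
    ext x; simp [pat]
  rw [this]
  exact Finset.measurableSet_biInter _ fun i _ => measurableSet_bit _ _

theorem P_pat (hk : Function.Injective k) (hM : ∀ i, ∃ o : ℤ, M i = 2 ^ k i * (2 * o + 1))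
    (s : Finset ι) (β : ι → ZMod 2) : P (pat M s β) = (1 / 2) ^ s.card := by
  classical
  induction s using Finset.induction_on_min_value k with
  | empty => simp [P, pat]
  | insert a s ha hmin ih =>
    have hmin' : ∀ i ∈ s, k a < k i := by
      intro i hi
      refine lt_of_le_of_ne (hmin i hi) fun h => ?_
      have := hk h
      rw [this] at ha
      exact ha hi
    set A : ZMod 2 → Set ℝ := fun c => pat M s β ∩ {x : ℝ | bit (M a * x) = c} with hA
    have hAm : ∀ c, MeasurableSet (A c) := fun c =>
      (measurableSet_pat M s β).inter (measurableSet_bit _ _)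
    have hper : ∀ c x, x + 1 ∈ A c ↔ x ∈ A c := by
      intro c x
      have h1 : ∀ i, bit (M i * (x + 1)) = bit (M i * x) := by
        intro i
        rw [mul_add, mul_one, bit_add_int]
      simp only [hA, pat, mem_inter_iff, mem_ofPred_eq, h1]
    set δ : ℝ := 1 / 2 ^ (k a + 1) with hδ
    have hshift : ∀ c, {x | x + δ ∈ A (c + 1)} = A c := by
      intro c
      ext x
      have h1 : ∀ i ∈ s, bit (M i * (x + δ)) = bit (M i * x) := by
        intro i hi
        obtain ⟨o, ho⟩ := hM i
        obtain ⟨d, hd⟩ := Nat.exists_eq_add_of_lt (hmin' i hi)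
        have h2 : (M i : ℝ) * (x + δ) = M i * x + ((2 ^ d * (2 * o + 1) : ℤ) : ℝ) := by
          rw [mul_add, hδ, ho, hd]
          push_cast
          field_simp
          ring
        rw [h2, bit_add_int]
      have h2 : bit (M a * (x + δ)) = bit (M a * x) + 1 := by
        obtain ⟨o, ho⟩ := hM a
        have h3 : (M a : ℝ) * (x + δ) = (M a * x + 1 / 2) + ((o : ℤ) : ℝ) := by
          rw [mul_add, hδ, ho]
          push_cast
          field_simp
          ring
        rw [h3, bit_add_int, bit_add_half]
      simp only [hA, pat, mem_inter_iff, mem_ofPred_eq, h2, add_left_inj]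
      constructor
      · rintro ⟨h3, h4⟩
        exact ⟨fun i hi => by rw [← h1 i hi]; exact h3 i hi, h4⟩
      · rintro ⟨h3, h4⟩
        exact ⟨fun i hi => by rw [h1 i hi]; exact h3 i hi, h4⟩
    have hins : pat M (insert a s) β = A (β a) := by
      ext x
      simp only [hA, pat, mem_inter_iff, mem_ofPred_eq, Finset.mem_insert]
      constructor
      · intro h
        exact ⟨fun i hi => h i (Or.inr hi), h a (Or.inl rfl)⟩
      · rintro ⟨h1, h2⟩ i (rfl | hi)
        · exact h2
        · exact h1 i hi
    have hsplit : pat M s β = A (β a) ∪ A (β a + 1) := by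
      ext x
      simp only [hA, mem_union, mem_inter_iff, mem_ofPred_eq, ← and_or_left]
      refine ⟨fun h => ⟨h, ?_⟩, fun h => h.1⟩
      generalize bit (M a * x) = u
      generalize β a = v
      revert u v
      decide
    have hdisj : Disjoint (A (β a)) (A (β a + 1)) := by
      rw [Set.disjoint_left]
      rintro x ⟨_, h1⟩ ⟨_, h2⟩
      simp only [mem_ofPred_eq] at h1 h2
      rw [h1] at h2
      revert h2
      generalize β a = v
      revert v
      decide
    have h3 : P (A (β a + 1)) = P (A (β a)) := by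
      rw [← hshift (β a), P_shift (hper _)]
    rw [hsplit, P_union (hAm _) (hAm _) hdisj, h3] at ih
    rw [hins, Finset.card_insert_of_notMem ha, pow_succ]
    linarith

theorem P_mem [Fintype ι] [DecidableEq ι] (hk : Function.Injective k)
    (hM : ∀ i, ∃ o : ℤ, M i = 2 ^ k i * (2 * o + 1))
    (G : Finset (ι → ZMod 2)) :
    P {x | (fun i => bit (M i * x)) ∈ G} = G.card * (1 / 2) ^ Fintype.card ι := by
  have h1 : {x : ℝ | (fun i => bit (M i * x)) ∈ G} = ⋃ β ∈ G, pat M Finset.univ β := by
    ext x
    simp only [mem_ofPred_eq, pat, mem_iUnion, Finset.mem_univ, true_imp_iff, exists_prop]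
    constructor
    · intro h
      exact ⟨_, h, fun _ => rfl⟩
    · rintro ⟨β, hβ, h⟩
      rw [funext h]
      exact hβ
  rw [h1, P_biUnion]
  · rw [Finset.sum_congr rfl fun β _ => P_pat M k hk hM Finset.univ β, Finset.sum_const,
      nsmul_eq_mul, Finset.card_univ]
  · exact fun β _ => measurableSet_pat _ _ _
  · intro β _ β' _ hne
    rw [Function.onFun, Set.disjoint_left]
    intro x h1 h2
    apply hne
    ext i
    rw [← h1 i (Finset.mem_univ _), ← h2 i (Finset.mem_univ _)]

end pattern

end Pool.Agent.Q74.Per
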