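import Mathlib
import Pool.Agent.Q74.Per.Bits

/-!
# One block of periodic sets
-/

set_option autoImplicit false

namespace Pool.Agent.Q74.Per

open MeasureTheory Set Filter

theorem P_eq {A : Set ℝ} (hA : MeasurableSet A) : P A = (volume (A ∩ Ioc 0 1)).toReal := by
  rw [P, intervalIntegral.integral_of_le zero_le_one, integral_indicator hA,
    Measure.restrict_restrict hA]
  simp [Measure.real]

theorem P_mono {A B : Set ℝ} (hA : MeasurableSet A) (hB : MeasurableSet B) (h : A ⊆ B) :
    P A ≤ P B := by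
  rw [P_eq hA, P_eq hB]
  refine ENNReal.toReal_mono ?_ (measure_mono (inter_subset_inter_left _ h))
  exact ((measure_mono inter_subset_right).trans_lt (by simp)).ne

theorem P_nonneg {A : Set ℝ} (hA : MeasurableSet A) : 0 ≤ P A := by
  rw [P_eq hA]
  exact ENNReal.toReal_nonneg

/-- A `1/n`-periodic set has at least the share `1/8` of its measure in `[1/2, 3/4)`. -/
theorem P_inter_ge {A : Set ℝ} (hA : MeasurableSet A) {n : ℕ} (hn : 8 ≤ n)
    (hper : ∀ x : ℝ, x + 1 / n ∈ A ↔ x ∈ A) : P A / 8 ≤ P (A ∩ Ico (1 / 2) (3 / 4)) := by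
  have hn0 : (0 : ℝ) < n := by exact_mod_cast lt_of_lt_of_le (by norm_num) hn
  set f : ℝ → ℝ := A.indicator fun _ => (1 : ℝ) with hf
  have hfper : Function.Periodic f (1 / n) := by
    intro x
    by_cases h : x ∈ A
    · rw [hf, indicator_of_mem h, indicator_of_mem ((hper x).2 h)]
    · rw [hf, indicator_of_notMem h, indicator_of_notMem (fun h' => h ((hper x).1 h'))]
  have hii : ∀ a b, IntervalIntegrable f volume a b := fun a b => ii_indicator hA a b
  have key : ∀ (m : ℕ) (t : ℝ), ∫ x in t..(t + m * (1 / n)), f x = m * ∫ x in (0 : ℝ)..(1 / n), f x := by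
    intro m t
    have h1 := hfper.intervalIntegral_add_zsmul_eq (m : ℤ) t (hii)
    have h2 := hfper.intervalIntegral_add_eq t 0
    rw [zero_add] at h2
    rw [h2] at h1
    simpa using h1
  set m : ℕ := n / 4 with hm
  have hm1 : (n : ℝ) ≤ 8 * m := by
    have : n ≤ 8 * m := by omega
    exact_mod_cast this
  have hm2 : (4 * m : ℝ) ≤ n := by
    have : 4 * m ≤ n := by omega
    exact_mod_cast this
  have h1 : P A = n * ∫ x in (0 : ℝ)..(1 / n), f x := by
    rw [P, ← key n 0]
    congr 1
    field_simp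
    ring
  have h2 := key m (1 / 2)
  have h3 : 0 ≤ ∫ x in (0 : ℝ)..(1 / n), f x := by
    refine intervalIntegral.integral_nonneg (by positivity) fun x _ => ?_
    exact indicator_nonneg (fun _ _ => zero_le_one) x
  have h4 : ∫ x in (1 / 2 : ℝ)..(1 / 2 + m * (1 / n)), f x ≤ P (A ∩ Ico (1 / 2) (3 / 4)) := by
    have h5 : (m : ℝ) * (1 / n) ≤ 1 / 4 := by
      rw [mul_one_div, div_le_iff₀ hn0]
      linarith
    have h6 : (0 : ℝ) ≤ m * (1 / n) := by positivity
    rw [intervalIntegral.integral_of_le (by linarith), P_eq (hA.inter measurableSet_Ico), hf,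
      integral_indicator hA, Measure.restrict_restrict hA]
    simp only [integral_const, MeasurableSet.univ, smul_eq_mul, mul_one, Measure.real,
      Measure.restrict_apply, univ_inter]
    have h7 : volume (A ∩ Ioc (1 / 2) (1 / 2 + (m : ℝ) * (1 / n))) ≤
        volume (A ∩ Ico (1 / 2) (3 / 4) ∩ Ioc 0 1) := by
      have h8 : A ∩ Ioc (1 / 2) (1 / 2 + (m : ℝ) * (1 / n)) ⊆
          (A ∩ Ico (1 / 2) (3 / 4) ∩ Ioc 0 1) ∪ {3 / 4} := by
        rintro x ⟨hx, hx1, hx2⟩
        rcases eq_or_ne x (3 / 4) with h | h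
        · exact Or.inr h
        · refine Or.inl ⟨⟨hx, hx1.le, lt_of_le_of_ne (by linarith) h⟩, by linarith, by linarith⟩
      calc volume (A ∩ Ioc (1 / 2) (1 / 2 + (m : ℝ) * (1 / n)))
          ≤ volume ((A ∩ Ico (1 / 2) (3 / 4) ∩ Ioc 0 1) ∪ {3 / 4}) := measure_mono h8
        _ ≤ volume (A ∩ Ico (1 / 2) (3 / 4) ∩ Ioc 0 1) + volume {(3 / 4 : ℝ)} :=
            measure_union_le _ _
        _ = _ := by simp
    refine ENNReal.toReal_mono ?_ h7
    exact ((measure_mono inter_subset_right).trans_lt (by simp)).ne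
  rw [h2] at h4
  refine le_trans ?_ h4
  rw [h1, mul_div_right_comm]
  refine mul_le_mul_of_nonneg_right ?_ h3
  linarith

section code

variable {V : Type} [AddCommGroup V] [Module (ZMod 2) V] [Fintype V] [DecidableEq V]

/-- the syndrome -/
def syn (β : V → ZMod 2) : V := ∑ u, β u • u

theorem syn_add_single (β : V → ZMod 2) (s : V) : syn (β + Pi.single s 1) = syn β + s := by
  rw [syn, syn]
  simp only [Pi.add_apply, add_smul, Finset.sum_add_distrib]
  congr 1
  rw [Finset.sum_eq_single s]
  · simp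
  · intro b _ hb
    simp [hb]
  · simp

theorem card_syn : (Finset.univ.filter fun β : V → ZMod 2 => syn β = 0).card * Fintype.card V =
    2 ^ Fintype.card V := by
  have h1 : ∀ s : V, (Finset.univ.filter fun β : V → ZMod 2 => syn β = s).card =
      (Finset.univ.filter fun β : V → ZMod 2 => syn β = 0).card := by
    intro s
    symm
    refine Finset.card_bij (fun β _ => β + Pi.single s 1) ?_ ?_ ?_
    · intro β hβ
      rw [Finset.mem_filter] at hβ ⊢
      exact ⟨Finset.mem_univ _, by rw [syn_add_single, hβ.2, zero_add]⟩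
    · intro β _ β' _ h
      exact add_right_cancel h
    · intro β hβ
      rw [Finset.mem_filter] at hβ
      refine ⟨β - Pi.single s 1, ?_, by simp⟩
      rw [Finset.mem_filter]
      refine ⟨Finset.mem_univ _, ?_⟩
      have := syn_add_single (β - Pi.single s 1) s
      rw [sub_add_cancel, hβ.2] at this
      exact (left_eq_add.1 (by rw [add_comm] at this; exact this))
  have h2 : (Finset.univ : Finset (V → ZMod 2)).card =
      ∑ s : V, (Finset.univ.filter fun β : V → ZMod 2 => syn β = s).card :=
    Finset.card_eq_sum_card_fiberwise (fun _ _ => Finset.mem_univ _)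
  rw [Finset.sum_congr rfl fun s _ => h1 s, Finset.sum_const, smul_eq_mul, Finset.card_univ,
    Finset.card_univ, Fintype.card_fun, ZMod.card] at h2
  rw [h2, mul_comm]

end code

end Pool.Agent.Q74.Per
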