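import Mathlib
import Pool.Agent.Q74.Per.Block

/-!
# The sets of one block
-/

set_option autoImplicit false

namespace Pool.Agent.Q74.Per

open MeasureTheory Set Filter

section crt

variable {V : Type} [Fintype V] [DecidableEq V]

/-- a numbering -/
noncomputable def idx (v : V) : ℕ := (Fintype.equivFin V v : ℕ)

omit [DecidableEq V] in
theorem idx_injective : Function.Injective (idx (V := V)) := by
  intro a b h
  exact (Fintype.equivFin V).injective (Fin.ext h)

omit [DecidableEq V] in
theorem idx_lt (v : V) : idx v < Fintype.card V := (Fintype.equivFin V v).2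

/-- the periods -/
noncomputable def per (N : ℕ) (v : V) : ℕ := Nat.nth Nat.Prime (N + 8 + idx v)

omit [DecidableEq V] in
theorem per_ge (N : ℕ) (v : V) : N + 8 ≤ per N v := by
  have := Nat.add_two_le_nth_prime (N + 8 + idx v)
  rw [per]
  omega

omit [DecidableEq V] in
theorem per_prime (N : ℕ) (v : V) : (per N v).Prime :=
  Nat.nth_mem_of_infinite Nat.infinite_setOfPred_prime _

omit [DecidableEq V] in
theorem per_injective (N : ℕ) : Function.Injective (per (V := V) N) := by
  intro a b h
  have := (Nat.nth_strictMono Nat.infinite_setOfPred_prime).injective h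
  exact idx_injective (by omega)

theorem exists_mult (N : ℕ) (v : V) : ∃ M : ℤ, (∃ o : ℤ, M = 2 ^ (idx v + 2) * (2 * o + 1)) ∧
    (∀ u, u ≠ v → (per N u : ℤ) ∣ M) ∧ (per N v : ℤ) ∣ M - 1 := by
  let s : Option V → ℕ := fun o => o.elim (2 ^ (Fintype.card V + 3)) (per N)
  let a : Option V → ℕ := fun o => o.elim (2 ^ (idx v + 2)) fun u => if u = v then 1 else 0
  have hs : ∀ i ∈ (Finset.univ : Finset (Option V)), s i ≠ 0 := by
    intro i _
    cases i with
    | none => exact pow_ne_zero _ two_ne_zero
    | some u => exact (per_prime N u).ne_zero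
  have hodd : ∀ u : V, Nat.Coprime (2 ^ (Fintype.card V + 3)) (per N u) := by
    intro u
    apply Nat.Coprime.pow_left
    rw [Nat.coprime_primes Nat.prime_two (per_prime N u)]
    have := per_ge N u
    omega
  have hpp : Set.Pairwise ((Finset.univ : Finset (Option V)) : Set (Option V))
      (Function.onFun Nat.Coprime s) := by
    intro i _ j _ hij
    cases i with
    | none =>
      cases j with
      | none => exact absurd rfl hij
      | some u => exact hodd u
    | some u =>
      cases j with
      | none => exact (hodd u).symm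
      | some w =>
        refine (Nat.coprime_primes (per_prime N u) (per_prime N w)).2 fun h => hij ?_
        rw [per_injective N h]
  obtain ⟨k, hk⟩ := Nat.chineseRemainderOfFinset a s Finset.univ hs hpp
  refine ⟨(k : ℤ), ?_, ?_, ?_⟩
  · have h1 := hk none (Finset.mem_univ _)
    simp only [s, a, Option.elim] at h1
    have h2 := (Nat.modEq_iff_dvd.1 h1.symm)
    obtain ⟨t, ht⟩ := h2
    have h3 := idx_lt v
    obtain ⟨d, hd⟩ : ∃ d, Fintype.card V + 3 = (idx v + 2) + 1 + d := ⟨Fintype.card V - idx v, by omega⟩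
    refine ⟨2 ^ d * t, ?_⟩
    rw [hd] at ht
    push_cast at ht
    rw [pow_add, pow_add] at ht
    linear_combination ht
  · intro u hu
    have h1 := hk (some u) (Finset.mem_univ _)
    simp only [s, a, Option.elim, hu, if_false] at h1
    exact_mod_cast (Nat.modEq_zero_iff_dvd.1 h1)
  · have h1 := hk (some v) (Finset.mem_univ _)
    simp only [s, a, Option.elim, if_true] at h1
    have := Nat.modEq_iff_dvd.1 h1.symm
    exact_mod_cast this

/-- the multipliers -/
noncomputable def mult (N : ℕ) (v : V) : ℤ := (exists_mult N v).choose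

theorem mult_val (N : ℕ) (v : V) : ∃ o : ℤ, mult N v = 2 ^ (idx v + 2) * (2 * o + 1) :=
  (exists_mult N v).choose_spec.1

theorem mult_dvd (N : ℕ) {u v : V} (h : u ≠ v) : (per N u : ℤ) ∣ mult N v :=
  (exists_mult N v).choose_spec.2.1 u h

theorem mult_dvd' (N : ℕ) (v : V) : (per N v : ℤ) ∣ mult N v - 1 :=
  (exists_mult N v).choose_spec.2.2

/-- the multipliers, with one of them lowered by one -/
noncomputable def mult' (N : ℕ) (v u : V) : ℤ := if u = v then mult N u - 1 else mult N u

theorem mult'_dvd (N : ℕ) (v u : V) : (per N v : ℤ) ∣ mult' N v u := by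
  rw [mult']
  by_cases h : u = v
  · rw [if_pos h, h]
    exact mult_dvd' N v
  · rw [if_neg h]
    exact mult_dvd N (Ne.symm h)

end crt

section sets

variable {V : Type} [AddCommGroup V] [Module (ZMod 2) V] [Fintype V] [DecidableEq V]

/-- the set with period `1 / per N v` -/
def EE (N : ℕ) (v : V) : Set ℝ :=
  {x | bit (2 * ((mult' N v v : ℤ) * x)) = 0 ∧ syn (fun u => bit (mult' N v u * x)) = 0}

/-- the set of measure `1 / |V|` -/
def ZZ (V : Type) [AddCommGroup V] [Module (ZMod 2) V] [Fintype V] [DecidableEq V] (N : ℕ) :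
    Set ℝ := {x | syn (fun u : V => bit (mult N u * x)) = 0}

theorem measurableSet_ZZ (N : ℕ) : MeasurableSet (ZZ V N) := by
  have h : ZZ V N = ⋃ β ∈ (Finset.univ.filter fun β : V → ZMod 2 => syn β = 0),
      ⋂ u ∈ (Finset.univ : Finset V), {x : ℝ | bit (mult N u * x) = β u} := by
    ext x
    simp only [ZZ, mem_ofPred_eq, mem_iUnion, Finset.mem_filter, Finset.mem_univ, true_and,
      mem_iInter, exists_prop, true_imp_iff]
    constructor
    · intro h
      exact ⟨_, h, fun _ => rfl⟩
    · rintro ⟨β, hβ, h⟩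
      rw [funext h]
      exact hβ
  rw [h]
  exact Finset.measurableSet_biUnion _ fun β _ =>
    Finset.measurableSet_biInter _ fun u _ => measurableSet_bit _ _

theorem P_ZZ (N : ℕ) : P (ZZ V N) * Fintype.card V = 1 := by
  have h1 := P_mem (fun v : V => mult N v) (fun v => idx v + 2)
    (fun a b h => idx_injective (by simpa using h)) (fun v => mult_val N v)
    (Finset.univ.filter fun β : V → ZMod 2 => syn β = 0)
  have h2 : {x : ℝ | (fun i => bit (mult N i * x)) ∈
      (Finset.univ.filter fun β : V → ZMod 2 => syn β = 0)} = ZZ V N := by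
    ext x
    simp [ZZ]
  rw [h2] at h1
  rw [h1, mul_right_comm]
  have h3 : ((Finset.univ.filter fun β : V → ZMod 2 => syn β = 0).card : ℝ) * Fintype.card V =
      2 ^ Fintype.card V := by exact_mod_cast card_syn (V := V)
  rw [h3, ← mul_pow]
  norm_num

theorem EE_eq (N : ℕ) (v : V) : EE N v = {x : ℝ | (fun i : Option V => bit
    (((i.elim (2 * mult' N v v) (mult' N v) : ℤ) : ℝ) * x)) ∈
      (Finset.univ.filter fun β : Option V → ZMod 2 =>
        β none = 0 ∧ syn (fun u => β (some u)) = 0)} := by
  ext x
  simp only [EE, mem_ofPred_eq, Finset.mem_filter, Finset.mem_univ, true_and, Option.elim]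
  push_cast
  rw [mul_assoc]

theorem measurableSet_EE (N : ℕ) (v : V) : MeasurableSet (EE N v) := by
  have h : EE N v = {x : ℝ | bit ((2 * (mult' N v v : ℤ) : ℝ) * x) = 0} ∩
      ⋃ β ∈ (Finset.univ.filter fun β : V → ZMod 2 => syn β = 0),
      ⋂ u ∈ (Finset.univ : Finset V), {x : ℝ | bit (mult' N v u * x) = β u} := by
    ext x
    simp only [EE, mem_ofPred_eq, mem_iUnion, Finset.mem_filter, Finset.mem_univ, true_and,
      mem_iInter, exists_prop, true_imp_iff, mem_inter_iff]
    rw [mul_assoc]
    refine and_congr_right fun _ => ?_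
    constructor
    · intro h
      exact ⟨_, h, fun _ => rfl⟩
    · rintro ⟨β, hβ, h⟩
      rw [funext h]
      exact hβ
  rw [h]
  exact (measurableSet_bit _ _).inter (Finset.measurableSet_biUnion _ fun β _ =>
    Finset.measurableSet_biInter _ fun u _ => measurableSet_bit _ _)

theorem P_EE (N : ℕ) (v : V) : P (EE N v) * (2 * Fintype.card V) = 1 := by
  have hval : ∀ i : Option V, ∃ o : ℤ, (i.elim (2 * mult' N v v) (mult' N v) : ℤ) =
      2 ^ (i.elim 1 (fun u => if u = v then 0 else idx u + 2) : ℕ) * (2 * o + 1) := by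
    have h0 : ∃ o : ℤ, mult' N v v = 2 * o + 1 := by
      obtain ⟨o, ho⟩ := mult_val N v
      refine ⟨2 ^ (idx v + 1) * (2 * o + 1) - 1, ?_⟩
      rw [mult', if_pos rfl, ho]
      ring
    intro i
    cases i with
    | none =>
      obtain ⟨o, ho⟩ := h0
      exact ⟨o, by simp only [Option.elim]; rw [ho]; ring⟩
    | some u =>
      by_cases h : u = v
      · obtain ⟨o, ho⟩ := h0
        refine ⟨o, ?_⟩
        simp only [Option.elim, h, if_true]
        rw [ho]; ring
      · obtain ⟨o, ho⟩ := mult_val N u
        refine ⟨o, ?_⟩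
        simp only [Option.elim, h, if_false, mult']
        rw [ho]
  have hinj : Function.Injective
      (fun i : Option V => (i.elim 1 (fun u => if u = v then 0 else idx u + 2) : ℕ)) := by
    intro i j hij
    cases i with
    | none =>
      cases j with
      | none => rfl
      | some w =>
        simp only [Option.elim] at hij
        split_ifs at hij <;> omega
    | some u =>
      cases j with
      | none =>
        simp only [Option.elim] at hij
        split_ifs at hij <;> omega
      | some w =>
        simp only [Option.elim] at hij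
        by_cases h1 : u = v
        · by_cases h2 : w = v
          · rw [h1, h2]
          · rw [if_pos h1, if_neg h2] at hij
            omega
        · by_cases h2 : w = v
          · rw [if_neg h1, if_pos h2] at hij
            omega
          · rw [if_neg h1, if_neg h2] at hij
            rw [idx_injective (by omega : idx u = idx w)]
  have h1 := P_mem _ _ hinj hval
    (Finset.univ.filter fun β : Option V → ZMod 2 => β none = 0 ∧ syn (fun u => β (some u)) = 0)
  rw [← EE_eq] at h1
  have h2 : (Finset.univ.filter fun β : Option V → ZMod 2 =>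
      β none = 0 ∧ syn (fun u => β (some u)) = 0).card =
      (Finset.univ.filter fun β : V → ZMod 2 => syn β = 0).card := by
    refine Finset.card_bij (fun β _ u => β (some u)) ?_ ?_ ?_
    · intro β hβ
      simp only [Finset.mem_filter, Finset.mem_univ, true_and] at hβ ⊢
      exact hβ.2
    · intro β hβ β' hβ' h
      simp only [Finset.mem_filter, Finset.mem_univ, true_and] at hβ hβ'
      ext i
      cases i with
      | none => rw [hβ.1, hβ'.1]
      | some u => rw [congrFun h u]
    · intro β hβ
      simp only [Finset.mem_filter, Finset.mem_univ, true_and] at hβ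
      exact ⟨fun i => i.elim 0 β, by simp [hβ], rfl⟩
  rw [h1, h2, Fintype.card_option]
  have h3 : ((Finset.univ.filter fun β : V → ZMod 2 => syn β = 0).card : ℝ) * Fintype.card V =
      2 ^ Fintype.card V := by exact_mod_cast card_syn (V := V)
  have h4 : ((Finset.univ.filter fun β : V → ZMod 2 => syn β = 0).card : ℝ) *
      (1 / 2) ^ (Fintype.card V + 1) * (2 * Fintype.card V) =
      ((Finset.univ.filter fun β : V → ZMod 2 => syn β = 0).card : ℝ) * Fintype.card V *
        (1 / 2) ^ Fintype.card V := by
    rw [pow_succ]; ring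
  rw [h4, h3, ← mul_pow]
  norm_num

theorem EE_periodic (N : ℕ) (v : V) (x : ℝ) : x + 1 / per N v ∈ EE N v ↔ x ∈ EE N v := by
  have hn : (per N v : ℝ) ≠ 0 := by exact_mod_cast (per_prime N v).ne_zero
  have h1 : ∀ u, ∃ c : ℤ, (mult' N v u : ℝ) * (x + 1 / per N v) = mult' N v u * x + c := by
    intro u
    obtain ⟨c, hc⟩ := mult'_dvd N v u
    refine ⟨c, ?_⟩
    rw [mul_add, hc]
    push_cast
    field_simp
  have h2 : ∀ u, bit (mult' N v u * (x + 1 / per N v)) = bit (mult' N v u * x) := by
    intro u
    obtain ⟨c, hc⟩ := h1 u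
    rw [hc, bit_add_int]
  have h3 : bit (2 * (mult' N v v * (x + 1 / per N v))) = bit (2 * (mult' N v v * x)) := by
    obtain ⟨c, hc⟩ := h1 v
    rw [hc, mul_add, show (2 : ℝ) * (c : ℝ) = ((2 * c : ℤ) : ℝ) by push_cast; ring, bit_add_int]
  simp only [EE, mem_ofPred_eq, h2, h3]

theorem EE_small {N : ℕ} {v : V} {x : ℝ} (hx : x ∈ EE N v) (h0 : 0 ≤ x) (h1 : x < 1 / 4) :
    x ∈ ZZ V N := by
  have h2 : ∀ u, bit (mult N u * x) = bit (mult' N v u * x) := by
    intro u
    by_cases h : u = v
    · have h3 : (mult N u : ℝ) * x = mult' N v v * x + x := by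
        rw [h, mult', if_pos rfl]; push_cast; ring
      rw [h3, bit_add_small hx.1 h0 h1, h]
    · rw [mult', if_neg h]
  show syn (fun u : V => bit (mult N u * x)) = 0
  rw [funext h2]
  exact hx.2

theorem EE_large {N : ℕ} {v : V} {x : ℝ} (hx : x ∈ EE N v) (h0 : 1 / 2 ≤ x) (h1 : x < 3 / 4) :
    syn (fun u : V => bit (mult N u * x)) = v := by
  have h2 : (fun u : V => bit (mult N u * x)) =
      (fun u => bit (mult' N v u * x)) + Pi.single v 1 := by
    ext u
    by_cases h : u = v
    · subst h
      have h3 : (mult N u : ℝ) * x = mult' N u u * x + x := by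
        rw [mult', if_pos rfl]; push_cast; ring
      rw [h3, bit_add_large hx.1 h0 h1]
      simp
    · rw [Pi.add_apply, Pi.single_eq_of_ne h, add_zero, mult', if_neg h]
  rw [h2, syn_add_single, hx.2, zero_add]

/-- the union of the sets of the block -/
def UU (V : Type) [AddCommGroup V] [Module (ZMod 2) V] [Fintype V] [DecidableEq V] (N : ℕ) :
    Set ℝ := ⋃ v ∈ (Finset.univ.erase (0 : V)), EE N v

theorem measurableSet_UU (N : ℕ) : MeasurableSet (UU V N) :=
  Finset.measurableSet_biUnion _ fun v _ => measurableSet_EE N v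

theorem UU_small (N : ℕ) : UU V N ∩ Ico 0 (1 / 4) ⊆ ZZ V N := by
  rintro x ⟨hx, h0, h1⟩
  simp only [UU, mem_iUnion] at hx
  obtain ⟨v, _, hv⟩ := hx
  exact EE_small hv h0 h1

theorem P_UU (N : ℕ) (hV : 2 ≤ Fintype.card V) : 1 / 32 ≤ P (UU V N) := by
  have h1 : UU V N ∩ Ico (1 / 2) (3 / 4) =
      ⋃ v ∈ (Finset.univ.erase (0 : V)), (EE N v ∩ Ico (1 / 2) (3 / 4)) := by
    rw [UU, iUnion₂_inter]
  have h2 : P (UU V N ∩ Ico (1 / 2) (3 / 4)) =
      ∑ v ∈ (Finset.univ.erase (0 : V)), P (EE N v ∩ Ico (1 / 2) (3 / 4)) := by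
    rw [h1]
    refine P_biUnion _ _ (fun v _ => (measurableSet_EE N v).inter measurableSet_Ico) ?_
    intro v _ w _ hne
    rw [Function.onFun, Set.disjoint_left]
    rintro x ⟨hx1, hx2, hx3⟩ ⟨hx4, _⟩
    apply hne
    rw [← EE_large hx1 hx2 hx3, ← EE_large hx4 hx2 hx3]
  have hc : (2 : ℝ) ≤ Fintype.card V := by exact_mod_cast hV
  have h3 : ∀ v ∈ (Finset.univ.erase (0 : V)),
      1 / (16 * (Fintype.card V : ℝ)) ≤ P (EE N v ∩ Ico (1 / 2) (3 / 4)) := by
    intro v _
    have h4 := P_inter_ge (measurableSet_EE N v) (n := per N v)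
      (by have := per_ge N v; omega) (EE_periodic N v)
    have h5 : P (EE N v) = 1 / (2 * Fintype.card V) := by
      rw [eq_div_iff (by positivity)]
      exact P_EE N v
    rw [h5, div_div] at h4
    convert h4 using 2
    ring
  have h4 := Finset.card_nsmul_le_sum _ _ _ h3
  rw [Finset.card_erase_of_mem (Finset.mem_univ _), Finset.card_univ, nsmul_eq_mul, ← h2] at h4
  have h5 : P (UU V N ∩ Ico (1 / 2) (3 / 4)) ≤ P (UU V N) :=
    P_mono ((measurableSet_UU N).inter measurableSet_Ico) (measurableSet_UU N) inter_subset_left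
  refine le_trans ?_ (h4.trans h5)
  rw [Nat.cast_sub (by omega)]
  push_cast
  rw [mul_one_div, div_le_div_iff₀ (by norm_num) (by positivity)]
  linarith

end sets

end Pool.Agent.Q74.Per
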